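import Pool.Agent.X181.DR.AET4

/-!
# A Lorentzian 4-metric with two almost Einstein scales which is not conformal to `g_pp`

The metric is the Ricci-flat wave `2 dt dz + dx² + dy² + eˣ cos y dt²` on `ℝ⁴`.
-/

set_option autoImplicit false

namespace Pool.Agent.Results.MP_d87c46_gt.HarmonicWave

open scoped ContDiff
open Pool.Agent.X181 Pool.Agent.X181.N4

/-- There is a Lorentzian metric `g` on `ℝ⁴` whose Weyl tensor vanishes at no point, whose space of
almost Einstein scales is exactly two-dimensional, and such that no nonempty open subset of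
`(ℝ⁴, g)` has a smooth conformal map to `(ℝ⁴, g_pp)`. -/
theorem result :
    ∃ (g : V → V → V → ℝ) (Γ : V → V →L[ℝ] V →L[ℝ] V),
      IsLorentz g ∧ IsLeviCivita Set.univ g Γ ∧
      (∀ p, ∃ u v w z, Weyl g Γ p u v w z ≠ 0) ∧
      (∃ s₁ s₂ : V → ℝ, LinearIndependent ℝ ![s₁, s₂] ∧
        ∀ s : V → ℝ, IsAEScale g Γ s ↔ ∃ a b : ℝ, s = a • s₁ + b • s₂) ∧
      ∀ U : Set V, IsOpen U → U.Nonempty →
        ∀ (φ : V → V) (ψ : V → ℝ), ContDiffOn ℝ ∞ φ U → ContDiffOn ℝ ∞ ψ U → (∀ p ∈ U, 0 < ψ p) →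
          ¬∀ p ∈ U, ∀ v w, gpp (φ p) (fderiv ℝ φ p v) (fderiv ℝ φ p w) = ψ p ^ 2 * g p v w := by
  refine ⟨gw, Gw, gw_isLorentz, isLC, weyl_ne, ⟨fun _ => 1, fun p => p 0, ?_, ae_iff⟩,
    fun U hU hne φ ψ hφ hψ hpos => no_map hU hne hφ hψ hpos⟩
  rw [LinearIndependent.pair_iff]
  intro a b h
  have h0 := congrFun h 0
  have h1 := congrFun h ![1, 0, 0, 0]
  simp only [Pi.add_apply, Pi.smul_apply, smul_eq_mul, mul_one, Pi.zero_apply, mul_zero,
    add_zero] at h0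
  simp [h0] at h1
  exact ⟨h0, h1⟩

end Pool.Agent.Results.MP_d87c46_gt.HarmonicWave
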